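import Pool.Agent.Y258.SD.Stmts

set_option autoImplicit false

/-!
# One-dimensional block sums of the Fourier coefficients of an interval (statement `St_A4`)
-/

namespace Pool.Agent.Y474.SD

open Finset Pool.Agent.H935R2.PS Pool.Agent.Y258

/-- Abel's inequality. -/
theorem abel_ineq (w a : ℕ → ℝ) (m : ℕ) (B : ℝ) (hw : ∀ k, m ≤ k → w (k + 1) ≤ w k)
    (hw0 : ∀ k, m ≤ k → 0 ≤ w k) (hB : ∀ n, m ≤ n → |∑ x ∈ Ico m n, a x| ≤ B) (n : ℕ) :
    |∑ x ∈ Ico m n, w x * a x| ≤ w m * B := by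
  have hB0 : 0 ≤ B := (abs_nonneg _).trans (hB m le_rfl)
  rcases le_or_gt m n with hmn | hmn
  swap
  · rw [Ico_eq_empty (by omega)]
    simpa using mul_nonneg (hw0 m le_rfl) hB0
  have key : ∀ n, m ≤ n →
      |∑ x ∈ Ico m n, w x * a x - w n * ∑ x ∈ Ico m n, a x| ≤ (w m - w n) * B := by
    intro n hn
    induction n, hn using Nat.le_induction with
    | base => simp
    | succ n hn ih =>
      rw [Finset.sum_Ico_succ_top hn, Finset.sum_Ico_succ_top hn]
      have e : ∑ x ∈ Ico m n, w x * a x + w n * a n - w (n + 1) * (∑ x ∈ Ico m n, a x + a n) =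
          (∑ x ∈ Ico m n, w x * a x - w n * ∑ x ∈ Ico m n, a x) +
          (w n - w (n + 1)) * (∑ x ∈ Ico m n, a x + a n) := by ring
      rw [e]
      refine (abs_add_le _ _).trans ?_
      have h1 : |(w n - w (n + 1)) * (∑ x ∈ Ico m n, a x + a n)| ≤ (w n - w (n + 1)) * B := by
        rw [abs_mul, abs_of_nonneg (sub_nonneg.2 (hw n hn))]
        refine mul_le_mul_of_nonneg_left ?_ (sub_nonneg.2 (hw n hn))
        rw [← Finset.sum_Ico_succ_top hn]
        exact hB (n + 1) (by omega)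
      nlinarith [ih, h1]
  have h1 := key n hmn
  have h2 : |w n * ∑ x ∈ Ico m n, a x| ≤ w n * B := by
    rw [abs_mul, abs_of_nonneg (hw0 n hmn)]
    exact mul_le_mul_of_nonneg_left (hB n hmn) (hw0 n hmn)
  have h3 := abs_add_le (∑ x ∈ Ico m n, w x * a x - w n * ∑ x ∈ Ico m n, a x)
    (w n * ∑ x ∈ Ico m n, a x)
  rw [sub_add_cancel] at h3
  nlinarith [h1, h2, h3]

/-- partial sums of `sin (2 π β x)` -/
theorem sin_partial (β : ℝ) (m n : ℕ) (hmn : m ≤ n) :
    2 * Real.sin (Real.pi * β) * ∑ x ∈ Ico m n, Real.sin (2 * Real.pi * β * x) =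
      Real.cos (Real.pi * β * (2 * m - 1)) - Real.cos (Real.pi * β * (2 * n - 1)) := by
  induction n, hmn using Nat.le_induction with
  | base => simp
  | succ n hn ih =>
    rw [Finset.sum_Ico_succ_top hn, mul_add, ih]
    have h := Real.cos_sub_cos (Real.pi * β * (2 * n - 1)) (Real.pi * β * (2 * (n + 1) - 1))
    have e1 : (Real.pi * β * (2 * n - 1) + Real.pi * β * (2 * (n + 1) - 1)) / 2 =
      2 * Real.pi * β * n := by ring
    have e2 : (Real.pi * β * (2 * n - 1) - Real.pi * β * (2 * (n + 1) - 1)) / 2 =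
      -(Real.pi * β) := by ring
    rw [e1, e2, Real.sin_neg] at h
    push_cast
    linarith

theorem abs_sin_ge {β : ℝ} (h : |β| ≤ 1 / 2) : 2 * |β| ≤ |Real.sin (Real.pi * β)| := by
  have hp := Real.pi_pos
  rcases le_total 0 β with h0 | h0
  · rw [abs_of_nonneg h0] at h ⊢
    have := Real.mul_le_sin (x := Real.pi * β) (by positivity) (by nlinarith)
    refine le_trans (le_of_eq ?_) (this.trans (le_abs_self _))
    field_simp
  · rw [abs_of_nonpos h0] at h ⊢
    have := Real.mul_le_sin (x := Real.pi * (-β)) (by nlinarith) (by nlinarith)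
    have e : Real.sin (Real.pi * β) = - Real.sin (Real.pi * (-β)) := by
      rw [mul_neg, Real.sin_neg, neg_neg]
    rw [e, abs_neg]
    refine le_trans (le_of_eq ?_) (this.trans (le_abs_self _))
    field_simp

theorem sin_partial_bound {β : ℝ} (h : |β| ≤ 1 / 2) (hβ : β ≠ 0) (m n : ℕ) (hmn : m ≤ n) :
    |∑ x ∈ Ico m n, Real.sin (2 * Real.pi * β * x)| ≤ 1 / (2 * |β|) := by
  have h0 : 0 < |β| := abs_pos.2 hβ
  have h1 := congrArg abs (sin_partial β m n hmn)
  rw [abs_mul, abs_mul, abs_two] at h1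
  have h2 : |Real.cos (Real.pi * β * (2 * m - 1)) - Real.cos (Real.pi * β * (2 * n - 1))| ≤ 2 := by
    refine (abs_sub _ _).trans ?_
    have a1 := Real.abs_cos_le_one (Real.pi * β * (2 * m - 1))
    have a2 := Real.abs_cos_le_one (Real.pi * β * (2 * n - 1))
    linarith
  have h3 := abs_sin_ge h
  rw [le_div_iff₀ (by positivity)]
  have h4 : 0 ≤ |∑ x ∈ Ico m n, Real.sin (2 * Real.pi * β * x)| := abs_nonneg _
  nlinarith

/-- Dirichlet kernel -/
theorem dirichlet_kernel (z : ℝ) (t : ℕ) :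
    Real.sin z * (1 + ∑ i ∈ Icc 1 t, 2 * Real.cos (2 * i * z)) = Real.sin ((2 * t + 1) * z) := by
  induction t with
  | zero => simp
  | succ t ih =>
    rw [Finset.sum_Icc_succ_top (by omega), ← add_assoc, mul_add, ih]
    have h := Real.sin_sub_sin ((2 * ((t : ℝ) + 1) + 1) * z) ((2 * t + 1) * z)
    have e1 : ((2 * ((t : ℝ) + 1) + 1) * z - (2 * t + 1) * z) / 2 = z := by ring
    have e2 : ((2 * ((t : ℝ) + 1) + 1) * z + (2 * t + 1) * z) / 2 = 2 * (t + 1) * z := by ring
    rw [e1, e2] at h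
    push_cast
    linarith

/-- the geometric bound -/
theorem geom_min (n : ℕ) : ∀ z : ℝ, 0 < z →
    ∑ b ∈ range n, min (z * 2 ^ b) (1 / (z * 2 ^ b)) ≤ if z < 1 then 4 - z else 2 / z := by
  induction n with
  | zero =>
    intro z hz
    simp only [range_zero, sum_empty]
    split_ifs with h
    · linarith
    · positivity
  | succ n ih =>
    intro z hz
    rw [Finset.sum_range_succ']
    have e : ∑ k ∈ range n, min (z * 2 ^ (k + 1)) (1 / (z * 2 ^ (k + 1))) =
        ∑ k ∈ range n, min ((2 * z) * 2 ^ k) (1 / ((2 * z) * 2 ^ k)) := by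
      refine sum_congr rfl fun k _ => ?_
      rw [show z * 2 ^ (k + 1) = 2 * z * 2 ^ k by ring]
    rw [e]
    have h := ih (2 * z) (by positivity)
    simp only [pow_zero, mul_one]
    by_cases h1 : z < 1
    · rw [if_pos h1]
      by_cases h2 : 2 * z < 1
      · rw [if_pos h2] at h
        have := min_le_left z (1 / z)
        linarith
      · rw [if_neg h2] at h
        have h3 := min_le_left z (1 / z)
        have h4 : 2 / (2 * z) ≤ 4 - 2 * z := by
          rw [div_le_iff₀ (by positivity)]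
          nlinarith
        linarith
    · rw [if_neg h1]
      rw [if_neg (by linarith)] at h
      have h3 := min_le_right z (1 / z)
      have h4 : 2 / (2 * z) + 1 / z = 2 / z := by field_simp; norm_num
      linarith

theorem geom_min4 (n : ℕ) (z : ℝ) (hz : 0 < z) :
    ∑ b ∈ range n, min (z * 2 ^ b) (1 / (z * 2 ^ b)) ≤ 4 := by
  refine (geom_min n z hz).trans ?_
  split_ifs with h
  · linarith
  · rw [div_le_iff₀ hz]; linarith


theorem Fc_add {q : ℕ} [NeZero q] (t : ℕ) (φ : ℝ) (N : ℕ) (h0 : 0 < N) (h1 : 2 * N < q) :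
    Fc t φ (N : ZMod q) + Fc t φ (-(N : ZMod q)) =
      (((Real.sin ((2 * t + 1) * (Real.pi * N / q)) / Real.sin (Real.pi * N / q) - 1 + 2 * φ) / q :
        ℝ) : ℂ) := by
  have hp := Real.pi_pos
  have hq : (0 : ℝ) < q := by
    have : 0 < q := by omega
    exact_mod_cast this
  have hN : (0 : ℝ) < N := by exact_mod_cast h0
  have hN1 : 2 * (N : ℝ) < q := by exact_mod_cast h1
  have hs : 0 < Real.sin (Real.pi * N / q) := by
    apply Real.sin_pos_of_pos_of_lt_pi
    · positivity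
    · rw [div_lt_iff₀ hq]
      nlinarith
  have hterm : ∀ i : ℕ, ZMod.stdAddChar ((N : ZMod q) * (i : ZMod q)) +
      ZMod.stdAddChar (-(N : ZMod q) * (i : ZMod q)) =
      ((2 * Real.cos (2 * i * (Real.pi * N / q)) : ℝ) : ℂ) := by
    intro i
    have e1 : (N : ZMod q) * (i : ZMod q) = (((N * i : ℕ) : ℤ) : ZMod q) := by push_cast; ring
    have e2 : -(N : ZMod q) * (i : ZMod q) = ((-((N * i : ℕ) : ℤ) : ℤ) : ZMod q) := by
      push_cast; ring
    rw [e1, e2, ZMod.stdAddChar_coe, ZMod.stdAddChar_coe]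
    push_cast
    rw [Complex.two_cos]
    congr 1 <;> congr 1 <;> ring
  have hsum : (∑ i ∈ Icc 1 t, ZMod.stdAddChar ((N : ZMod q) * (i : ZMod q))) +
      (∑ i ∈ Icc 1 t, ZMod.stdAddChar (-(N : ZMod q) * (i : ZMod q))) =
      ((Real.sin ((2 * t + 1) * (Real.pi * N / q)) / Real.sin (Real.pi * N / q) - 1 : ℝ) : ℂ) := by
    rw [← Finset.sum_add_distrib, Finset.sum_congr rfl (fun i _ => hterm i),
      ← Complex.ofReal_sum]
    congr 1
    rw [eq_sub_iff_add_eq, eq_div_iff hs.ne', ← dirichlet_kernel]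
    ring
  unfold Fc
  rw [← add_div]
  have e : (∑ i ∈ Icc 1 t, ZMod.stdAddChar ((N : ZMod q) * (i : ZMod q))) + (φ : ℂ) +
      ((∑ i ∈ Icc 1 t, ZMod.stdAddChar (-(N : ZMod q) * (i : ZMod q))) + (φ : ℂ)) =
      ((Real.sin ((2 * t + 1) * (Real.pi * N / q)) / Real.sin (Real.pi * N / q) - 1 + 2 * φ : ℝ) :
        ℂ) := by
    rw [show (∑ i ∈ Icc 1 t, ZMod.stdAddChar ((N : ZMod q) * (i : ZMod q))) + (φ : ℂ) +
      ((∑ i ∈ Icc 1 t, ZMod.stdAddChar (-(N : ZMod q) * (i : ZMod q))) + (φ : ℂ)) =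
      ((∑ i ∈ Icc 1 t, ZMod.stdAddChar ((N : ZMod q) * (i : ZMod q))) +
      (∑ i ∈ Icc 1 t, ZMod.stdAddChar (-(N : ZMod q) * (i : ZMod q)))) + 2 * (φ : ℂ) by ring, hsum]
    push_cast
    ring
  rw [e]
  push_cast
  ring

/-- the weight `1 / sin (π N x / q)`, cut off at `2 N x < q` -/
noncomputable def wg (q N x : ℕ) : ℝ :=
  if 2 * (N * x) < q then 1 / Real.sin (Real.pi * (N * x : ℕ) / q) else 0

theorem sin_pos_aux {q M : ℕ} (h0 : 0 < M) (h1 : 2 * M < q) :
    2 * (M : ℝ) / q ≤ Real.sin (Real.pi * M / q) := by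
  have hp := Real.pi_pos
  have hq : (0 : ℝ) < q := by
    have : 0 < q := by omega
    exact_mod_cast this
  have hN1 : 2 * (M : ℝ) < q := by exact_mod_cast h1
  have := Real.mul_le_sin (x := Real.pi * M / q) (by positivity) (by
    rw [div_le_iff₀ hq]; nlinarith)
  refine le_trans (le_of_eq ?_) this
  field_simp

theorem wg_nonneg (q N x : ℕ) (hN : 0 < N) (hx : 0 < x) : 0 ≤ wg q N x := by
  unfold wg
  split_ifs with h
  · have h0 : 0 < N * x := by positivity
    have := sin_pos_aux h0 h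
    have h2 : (0 : ℝ) ≤ 2 * ((N * x : ℕ) : ℝ) / q := by positivity
    have : 0 ≤ Real.sin (Real.pi * (N * x : ℕ) / q) := h2.trans this
    positivity
  · exact le_rfl

theorem wg_le (q N x : ℕ) (hN : 0 < N) (hx : 0 < x) (hq : 0 < q) :
    wg q N x ≤ q / (2 * (N * x)) := by
  have hN' : (0 : ℝ) < N := by exact_mod_cast hN
  have hx' : (0 : ℝ) < x := by exact_mod_cast hx
  have hq' : (0 : ℝ) < q := by exact_mod_cast hq
  unfold wg
  split_ifs with h
  · have h0 : 0 < N * x := by positivity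
    have h1 := sin_pos_aux h0 h
    have h2 : (0 : ℝ) < 2 * ((N * x : ℕ) : ℝ) / q := by positivity
    calc 1 / Real.sin (Real.pi * (N * x : ℕ) / q) ≤ 1 / (2 * ((N * x : ℕ) : ℝ) / q) :=
          one_div_le_one_div_of_le h2 h1
      _ = q / (2 * (N * x)) := by push_cast; field_simp
  · positivity

theorem wg_anti (q N x : ℕ) (hN : 0 < N) (hx : 0 < x) : wg q N (x + 1) ≤ wg q N x := by
  have hp := Real.pi_pos
  by_cases h : 2 * (N * (x + 1)) < q
  · have h' : 2 * (N * x) < q := by nlinarith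
    have hq : (0 : ℝ) < q := by
      have : 0 < q := by omega
      exact_mod_cast this
    unfold wg
    rw [if_pos h, if_pos h']
    have h0 : 0 < N * x := by positivity
    have h1 := sin_pos_aux h0 h'
    have h2 : (0 : ℝ) < 2 * ((N * x : ℕ) : ℝ) / q := by
      have : (0 : ℝ) < ((N * x : ℕ) : ℝ) := by exact_mod_cast h0
      positivity
    apply one_div_le_one_div_of_le (h2.trans_le h1)
    have h3 : ((N * x : ℕ) : ℝ) ≤ ((N * (x + 1) : ℕ) : ℝ) := by
      exact_mod_cast Nat.mul_le_mul_left N (by omega)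
    have h4 : 2 * ((N * (x + 1) : ℕ) : ℝ) < q := by exact_mod_cast h
    apply Real.sin_le_sin_of_le_of_le_pi_div_two
    · have : 0 ≤ Real.pi * ((N * x : ℕ) : ℝ) / q := by positivity
      linarith
    · rw [div_le_iff₀ hq]
      nlinarith
    · exact div_le_div_of_nonneg_right (mul_le_mul_of_nonneg_left h3 hp.le) hq.le
  · conv_lhs => unfold wg
    rw [if_neg h]
    exact wg_nonneg q N x hN hx

/-- the dyadic block -/
def blk (q g j b : ℕ) : Finset ℕ :=
  (Icc 1 q).filter (fun x => Nat.log 2 (j * x) = b ∧ 2 * (g * j * x) < q)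

theorem blk_eq (q g j b : ℕ) (hg : 1 ≤ g) (hj : 1 ≤ j) :
    blk q g j b = (Ico (2 ^ b ⌈/⌉ j) (2 ^ (b + 1) ⌈/⌉ j)).filter (fun x => 2 * (g * j * x) < q) := by
  ext x
  simp only [blk, mem_filter, mem_Icc, mem_Ico]
  have h1 : (2 ^ b ⌈/⌉ j ≤ x) ↔ 2 ^ b ≤ j * x := ceilDiv_le_iff_le_mul (by omega)
  have h2 : (x < 2 ^ (b + 1) ⌈/⌉ j) ↔ j * x < 2 ^ (b + 1) := by
    rw [← not_le, ← not_le, not_iff_not]
    exact ceilDiv_le_iff_le_mul (by omega)
  rw [h1, h2]
  constructor
  · rintro ⟨⟨hx1, hx2⟩, h3, h4⟩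
    have hjx : j * x ≠ 0 := by positivity
    refine ⟨⟨?_, ?_⟩, h4⟩
    · rw [← h3]; exact Nat.pow_log_le_self 2 hjx
    · rw [← h3]; exact Nat.lt_pow_succ_log_self (by norm_num) _
  · rintro ⟨⟨h3, h4⟩, h5⟩
    have hjx : j * x ≠ 0 := by
      have : 0 < 2 ^ b := by positivity
      omega
    have hx : 1 ≤ x := by
      rcases Nat.eq_zero_or_pos x with h | h
      · rw [h, mul_zero] at hjx; exact absurd rfl hjx
      · exact h
    refine ⟨⟨hx, ?_⟩, ?_, h5⟩
    · have h6 : 1 * 1 * x ≤ g * j * x := by gcongr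
      omega
    · exact (Nat.log_eq_iff (Or.inr ⟨by norm_num, hjx⟩)).2 ⟨h3, h4⟩

theorem blk_card (q g j b : ℕ) (hg : 1 ≤ g) (hj : 1 ≤ j) :
    ((blk q g j b).card : ℝ) ≤ 3 * 2 ^ b / j := by
  have hj' : (0 : ℝ) < j := by exact_mod_cast hj
  rcases (blk q g j b).eq_empty_or_nonempty with h | ⟨x, hx⟩
  · rw [h, card_empty]
    push_cast
    positivity
  · have hx' := hx
    rw [blk_eq q g j b hg hj, mem_filter, mem_Ico] at hx'
    have h1 : (2 ^ b ⌈/⌉ j ≤ x) ↔ 2 ^ b ≤ j * x := ceilDiv_le_iff_le_mul (by omega)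
    have h2 : ∀ x, (x < 2 ^ (b + 1) ⌈/⌉ j) ↔ j * x < 2 ^ (b + 1) := by
      intro x
      rw [← not_le, ← not_le, not_iff_not]
      exact ceilDiv_le_iff_le_mul (by omega)
    have hx1 : 1 ≤ x := by
      simp only [blk, mem_filter, mem_Icc] at hx
      exact hx.1.1
    have hj2 : j < 2 ^ (b + 1) := by
      have := (h2 x).1 hx'.1.2
      nlinarith
    have hc : (blk q g j b).card ≤ 2 ^ (b + 1) ⌈/⌉ j - 2 ^ b ⌈/⌉ j := by
      rw [blk_eq q g j b hg hj]
      refine (card_filter_le _ _).trans ?_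
      rw [Nat.card_Ico]
    have h3 : 2 ^ b ≤ j * (2 ^ b ⌈/⌉ j) := by
      exact (ceilDiv_le_iff_le_mul (by omega)).1 le_rfl
    obtain ⟨X2, hX2⟩ : ∃ y, 2 ^ (b + 1) ⌈/⌉ j = y + 1 :=
      ⟨2 ^ (b + 1) ⌈/⌉ j - 1, by omega⟩
    have h4 : j * X2 < 2 ^ (b + 1) := (h2 X2).1 (by omega)
    set X1 := 2 ^ b ⌈/⌉ j with hX1
    have h5 : X1 ≤ X2 := by omega
    rw [hX2] at hc
    have hc' : (blk q g j b).card ≤ (X2 - X1) + 1 := by omega
    have h6 : j * (X2 - X1) ≤ 2 ^ b := by
      rw [Nat.mul_sub]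
      have : 2 ^ (b + 1) = 2 * 2 ^ b := by ring
      omega
    have h7 : j * (blk q g j b).card ≤ 3 * 2 ^ b := by
      calc j * (blk q g j b).card ≤ j * ((X2 - X1) + 1) := Nat.mul_le_mul_left _ hc'
        _ = j * (X2 - X1) + j := by ring
        _ ≤ 2 ^ b + 2 ^ (b + 1) := by omega
        _ = 3 * 2 ^ b := by ring
    rw [le_div_iff₀ hj']
    have : ((j * (blk q g j b).card : ℕ) : ℝ) ≤ ((3 * 2 ^ b : ℕ) : ℝ) := by exact_mod_cast h7
    push_cast at this
    linarith

theorem sin_shift (α : ℝ) (x : ℕ) :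
    Real.sin (2 * Real.pi * α * x) = Real.sin (2 * Real.pi * (α - round α) * x) := by
  have e : 2 * Real.pi * α * x = 2 * Real.pi * (α - round α) * x +
      ((round α * x : ℤ) : ℝ) * (2 * Real.pi) := by push_cast; ring
  rw [e, Real.sin_add_int_mul_two_pi]

/-- the main part of a block -/
theorem blk_main (q g j b : ℕ) (hg : 1 ≤ g) (hj : 1 ≤ j) (hq : 0 < q) (β : ℝ) (h : |β| ≤ 1 / 2)
    (hβ : β ≠ 0) :
    |∑ x ∈ blk q g j b, wg q (g * j) x * Real.sin (2 * Real.pi * β * x)| / q ≤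
      10 / (g * j) * min (|β| / j * 2 ^ b) (1 / (|β| / j * 2 ^ b)) := by
  have hp := Real.pi_pos
  have hp3 := Real.pi_lt_d2
  have hg' : (0 : ℝ) < g := by exact_mod_cast hg
  have hj' : (0 : ℝ) < j := by exact_mod_cast hj
  have hq' : (0 : ℝ) < q := by exact_mod_cast hq
  have hb0 : 0 < |β| := abs_pos.2 hβ
  have hgj : 0 < g * j := by positivity
  have h2b : (0 : ℝ) < 2 ^ b := by positivity
  rw [mul_min_of_nonneg _ _ (by positivity), div_le_iff₀ hq']
  rw [min_mul_of_nonneg _ _ hq'.le]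
  apply le_min
  · -- bound A
    have h1 : ∀ x ∈ blk q g j b, |wg q (g * j) x * Real.sin (2 * Real.pi * β * x)| ≤
        q * Real.pi * |β| / (g * j) := by
      intro x hx
      have hx1 : 0 < x := by
        simp only [blk, mem_filter, mem_Icc] at hx
        exact hx.1.1
      have hx' : (0 : ℝ) < x := by exact_mod_cast hx1
      have w0 := wg_nonneg q (g * j) x hgj hx1
      have w1 := wg_le q (g * j) x hgj hx1 hq
      have s1 : |Real.sin (2 * Real.pi * β * x)| ≤ 2 * Real.pi * |β| * x := by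
        refine (Real.abs_sin_le_abs (x := 2 * Real.pi * β * x)).trans (le_of_eq ?_)
        rw [abs_mul, abs_mul, abs_mul, abs_two, abs_of_pos hp, abs_of_pos hx']
      rw [abs_mul, abs_of_nonneg w0]
      calc wg q (g * j) x * |Real.sin (2 * Real.pi * β * x)|
          ≤ (q / (2 * (((g * j : ℕ) : ℝ) * x))) * (2 * Real.pi * |β| * x) :=
            mul_le_mul w1 s1 (abs_nonneg _) (by positivity)
        _ = q * Real.pi * |β| / (g * j) := by push_cast; field_simp
    have h2 := (abs_sum_le_sum_abs _ _).trans (sum_le_sum h1)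
    rw [sum_const, nsmul_eq_mul] at h2
    refine h2.trans ?_
    have h3 := mul_le_mul_of_nonneg_right (blk_card q g j b hg hj)
      (by positivity : 0 ≤ q * Real.pi * |β| / (g * j))
    refine h3.trans ?_
    have e1 : 3 * 2 ^ b / (j : ℝ) * (q * Real.pi * |β| / (g * j)) =
      (3 * Real.pi) * (2 ^ b / (j : ℝ) * (q * |β| / (g * j))) := by ring
    have e2 : 10 / ((g : ℝ) * j) * (|β| / j * 2 ^ b) * q =
      10 * (2 ^ b / (j : ℝ) * (q * |β| / (g * j))) := by ring
    rw [e1, e2]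
    apply mul_le_mul_of_nonneg_right (by linarith) (by positivity)
  · -- bound B
    have hX1 : 0 < 2 ^ b ⌈/⌉ j := by
      by_contra hh
      have h0 : 2 ^ b ⌈/⌉ j ≤ 0 := by omega
      rw [ceilDiv_le_iff_le_mul (by omega)] at h0
      have : 0 < 2 ^ b := by positivity
      omega
    have hX1' : 2 ^ b ≤ j * (2 ^ b ⌈/⌉ j) := (ceilDiv_le_iff_le_mul (by omega)).1 le_rfl
    have e : ∑ x ∈ blk q g j b, wg q (g * j) x * Real.sin (2 * Real.pi * β * x) =
        ∑ x ∈ Ico (2 ^ b ⌈/⌉ j) (2 ^ (b + 1) ⌈/⌉ j),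
          wg q (g * j) x * Real.sin (2 * Real.pi * β * x) := by
      rw [blk_eq q g j b hg hj, sum_filter]
      refine sum_congr rfl fun x _ => ?_
      unfold wg
      split_ifs with h1
      · rfl
      · simp
    rw [e]
    have hA := abel_ineq (wg q (g * j)) (fun x => Real.sin (2 * Real.pi * β * x)) (2 ^ b ⌈/⌉ j)
      (1 / (2 * |β|)) (fun k hk => wg_anti q (g * j) k hgj (by omega))
      (fun k hk => wg_nonneg q (g * j) k hgj (by omega))
      (fun n hn => sin_partial_bound h hβ _ n hn) (2 ^ (b + 1) ⌈/⌉ j)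
    refine hA.trans ?_
    have w1 := wg_le q (g * j) (2 ^ b ⌈/⌉ j) hgj hX1 hq
    have h3 : (2 : ℝ) ^ b ≤ j * ((2 ^ b ⌈/⌉ j : ℕ) : ℝ) := by exact_mod_cast hX1'
    have h4 : wg q (g * j) (2 ^ b ⌈/⌉ j) ≤ q / (2 * (g * 2 ^ b)) := by
      refine w1.trans ?_
      apply div_le_div_of_nonneg_left hq'.le (by positivity)
      push_cast
      nlinarith
    refine (mul_le_mul_of_nonneg_right h4 (by positivity)).trans ?_
    have e1 : (q : ℝ) / (2 * (g * 2 ^ b)) * (1 / (2 * |β|)) = (1 / 4) * (q / (g * 2 ^ b * |β|)) := by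
      field_simp; norm_num
    have e2 : 10 / ((g : ℝ) * j) * (1 / (|β| / j * 2 ^ b)) * q = 10 * (q / (g * 2 ^ b * |β|)) := by
      field_simp
    rw [e1, e2]
    apply mul_le_mul_of_nonneg_right (by norm_num) (by positivity)

theorem sum_blk_card (q g j : ℕ) (hg : 1 ≤ g) (hj : 1 ≤ j) (hq : 0 < q) :
    ∑ b ∈ range (La q + 1), (((blk q g j b).card : ℝ) / q) ≤ 1 / (g * j) := by
  have hg' : (0 : ℝ) < g := by exact_mod_cast hg
  have hj' : (0 : ℝ) < j := by exact_mod_cast hj
  have hq' : (0 : ℝ) < q := by exact_mod_cast hq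
  rw [← sum_div, div_le_iff₀ hq', ← Nat.cast_sum]
  have h1 : ∑ b ∈ range (La q + 1), (blk q g j b).card ≤
      ((Icc 1 q).filter (fun x => 2 * (g * j * x) < q)).card := by
    have := card_eq_sum_card_fiberwise (f := fun x => Nat.log 2 (j * x))
      (s := (Icc 1 q).filter (fun x => 2 * (g * j * x) < q ∧ Nat.log 2 (j * x) ∈ range (La q + 1)))
      (t := range (La q + 1)) (by
        intro x hx
        simp only [coe_filter, Set.mem_ofPred_eq] at hx
        exact_mod_cast hx.2.2)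
    refine le_trans (le_of_eq ?_) (card_le_card (s :=
      (Icc 1 q).filter (fun x => 2 * (g * j * x) < q ∧ Nat.log 2 (j * x) ∈ range (La q + 1))) ?_)
    · rw [this]
      refine sum_congr rfl fun b hb => ?_
      congr 1
      ext x
      simp only [blk, mem_filter]
      constructor
      · rintro ⟨h1, h2, h3⟩
        exact ⟨⟨h1, h3, by rw [h2]; exact hb⟩, h2⟩
      · rintro ⟨⟨h1, h2, _⟩, h4⟩
        exact ⟨h1, h4, h2⟩
    · intro x hx
      simp only [mem_filter] at hx ⊢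
      exact ⟨hx.1, hx.2.1⟩
  have h2 : ((Icc 1 q).filter (fun x => 2 * (g * j * x) < q)).card ≤ q / (g * j) := by
    have : ((Icc 1 q).filter (fun x => 2 * (g * j * x) < q)) ⊆ Icc 1 (q / (g * j)) := by
      intro x hx
      simp only [mem_filter, mem_Icc] at hx ⊢
      refine ⟨hx.1.1, ?_⟩
      rw [Nat.le_div_iff_mul_le (by positivity)]
      have e : x * (g * j) = g * j * x := by ring
      rw [e]
      omega
    simpa using card_le_card this
  have h3 : ((∑ b ∈ range (La q + 1), (blk q g j b).card : ℕ) : ℝ) ≤ ((q / (g * j) : ℕ) : ℝ) := by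
    exact_mod_cast h1.trans h2
  refine h3.trans ?_
  refine (Nat.cast_div_le).trans ?_
  push_cast
  apply le_of_eq
  ring

theorem a4 : St_A4 := by
  refine ⟨41, by norm_num, ?_⟩
  intro q hqp hq3 t φ ht hφ0 hφ1 g j hg hj
  have hq0 : 0 < q := by omega
  have : NeZero q := ⟨by omega⟩
  have hg' : (0 : ℝ) < g := by exact_mod_cast hg
  have hj' : (0 : ℝ) < j := by exact_mod_cast hj
  have hq' : (0 : ℝ) < q := by exact_mod_cast hq0
  set α : ℝ := (2 * t + 1) * (g * j) / (2 * q) with hα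
  set β : ℝ := α - round α with hβd
  have hβ : |β| ≤ 1 / 2 := abs_sub_round α
  have hmain : ∀ b, ‖∑ x ∈ (Icc 1 q).filter (fun x => Nat.log 2 (j * x) = b ∧
      2 * (g * j * x) < q), (Fc t φ ((g * j * x : ℕ) : ZMod q) +
        Fc t φ (-((g * j * x : ℕ) : ZMod q)))‖ ≤
      |∑ x ∈ blk q g j b, wg q (g * j) x * Real.sin (2 * Real.pi * β * x)| / q +
        (blk q g j b).card / q := by
    intro b
    have e1 : ∀ x ∈ blk q g j b, Fc t φ ((g * j * x : ℕ) : ZMod q) +
        Fc t φ (-((g * j * x : ℕ) : ZMod q)) =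
        ((wg q (g * j) x * Real.sin (2 * Real.pi * β * x) / q + (2 * φ - 1) / q : ℝ) : ℂ) := by
      intro x hx
      simp only [blk, mem_filter, mem_Icc] at hx
      have h0 : 0 < g * j * x := by
        have := hx.1.1
        positivity
      rw [Fc_add t φ (g * j * x) h0 hx.2.2, ← sin_shift]
      congr 1
      unfold wg
      rw [if_pos hx.2.2]
      have e2 : (2 * (t : ℝ) + 1) * (Real.pi * ((g * j * x : ℕ) : ℝ) / q) =
          2 * Real.pi * α * x := by
        rw [hα]; push_cast; field_simp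
      rw [e2]
      ring
    change ‖∑ x ∈ blk q g j b, (Fc t φ ((g * j * x : ℕ) : ZMod q) +
        Fc t φ (-((g * j * x : ℕ) : ZMod q)))‖ ≤ _
    rw [sum_congr rfl e1, ← Complex.ofReal_sum, Complex.norm_real, Real.norm_eq_abs,
      sum_add_distrib, ← sum_div, sum_const, nsmul_eq_mul]
    refine (abs_add_le _ _).trans ?_
    rw [abs_div, abs_of_pos hq', abs_mul, Nat.abs_cast, abs_div, abs_of_pos hq']
    have h3 : |2 * φ - 1| ≤ 1 := by rw [abs_le]; constructor <;> linarith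
    have h4 : ((blk q g j b).card : ℝ) * (|2 * φ - 1| / q) ≤ (blk q g j b).card / q := by
      rw [← mul_div_assoc]
      apply div_le_div_of_nonneg_right _ hq'.le
      nlinarith [Nat.cast_nonneg (α := ℝ) (blk q g j b).card]
    linarith
  refine (sum_le_sum fun b _ => hmain b).trans ?_
  rw [sum_add_distrib]
  have hcard := sum_blk_card q g j hg hj hq0
  have hm : ∑ b ∈ range (La q + 1),
      |∑ x ∈ blk q g j b, wg q (g * j) x * Real.sin (2 * Real.pi * β * x)| / q ≤ 40 / (g * j) := by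
    by_cases hb0 : β = 0
    · rw [hb0]
      simp only [mul_zero, zero_mul, Real.sin_zero, sum_const_zero, abs_zero, zero_div]
      positivity
    · have hb1 : 0 < |β| := abs_pos.2 hb0
      refine (sum_le_sum fun b _ => blk_main q g j b hg hj hq0 β hβ hb0).trans ?_
      rw [← mul_sum]
      have := geom_min4 (La q + 1) (|β| / j) (by positivity)
      calc 10 / ((g : ℝ) * j) * ∑ b ∈ range (La q + 1), min (|β| / j * 2 ^ b) (1 / (|β| / j * 2 ^ b))
          ≤ 10 / ((g : ℝ) * j) * 4 := mul_le_mul_of_nonneg_left this (by positivity)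
        _ = 40 / (g * j) := by ring
  have e : (41 : ℝ) / (g * j) = 40 / (g * j) + 1 / (g * j) := by ring
  rw [e]
  exact add_le_add hm hcard

end Pool.Agent.Y474.SD
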