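import Pool.Agent.Y474.SD.A4

set_option autoImplicit false

/-!
# The signed sum over the vectors which are parallel to a bad vector (`St_A4 → St_A5`)
-/

namespace Pool.Agent.Y474.SD

open Finset Pool.Agent.H935R2.PS Pool.Agent.Y258

section red
variable {q : ℕ} {ι : Type} [Fintype ι]

/-- the gcd of a vector -/
def gc (n : ι → ℕ) : ℕ := univ.gcd n

/-- the primitive vector is bad -/
def cnd (q D K0 : ℕ) (n : ι → ℕ) : Prop := ∑ a, Nat.log 2 (n a / gc n) + K0 ≤ D * La q

theorem gc_pos [Nonempty ι] (n : ι → ℕ) (hn : ∀ a, 1 ≤ n a) : 0 < gc n := by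
  obtain ⟨a⟩ := (inferInstance : Nonempty ι)
  rcases Nat.eq_zero_or_pos (gc n) with h | h
  · have h1 : gc n ∣ n a := gcd_dvd (mem_univ a)
    rw [h, zero_dvd_iff] at h1
    have := hn a
    omega
  · exact h

theorem gc_dvd (n : ι → ℕ) (a : ι) : gc n ∣ n a := gcd_dvd (mem_univ a)

theorem nn_pos {x : ZMod q} (hx : x ≠ 0) : 1 ≤ nn x := by
  unfold nn
  have : x.valMinAbs ≠ 0 := by
    intro h
    exact hx ((ZMod.valMinAbs_eq_zero x).1 h)
  omega

theorem bdp_iff [NeZero q] [Nonempty ι] (hq2 : q % 2 = 1) (D K0 : ℕ) (h : ι → ZMod q)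
    (hh : ∀ a, h a ≠ 0) : BdP D K0 h ↔ cnd q D K0 (fun a => nn (h a)) := by
  classical
  set n : ι → ℕ := fun a => nn (h a) with hn
  have hn1 : ∀ a, 1 ≤ n a := fun a => nn_pos (hh a)
  have hg := gc_pos n hn1
  constructor
  · rintro ⟨h', hh', hp, hb⟩
    unfold cnd
    refine le_trans (Nat.add_le_add_right (sum_le_sum fun a _ => ?_) _) hb
    unfold dl
    apply Nat.log_mono_right
    -- n a / g ≤ n' a
    set n' : ι → ℕ := fun a => nn (h' a) with hn'
    have hn1' : ∀ a, 1 ≤ n' a := fun a => nn_pos (hh' a)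
    have hg' := gc_pos n' hn1'
    have hpar : ∀ a b, n a * n' b = n b * n' a := by
      intro a b
      have := congrArg Int.natAbs (hp a b)
      rw [Int.natAbs_mul, Int.natAbs_mul] at this
      exact this
    have h1 : n' a * gc n = n a * gc n' := by
      have e1 : univ.gcd (fun b => n' a * n b) = n' a * gc n := by
        rw [Finset.gcd_mul_left]; simp [gc]
      have e2 : univ.gcd (fun b => n a * n' b) = n a * gc n' := by
        rw [Finset.gcd_mul_left]; simp [gc]
      rw [← e1, ← e2]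
      congr 1
      funext b
      rw [hpar a b]; ring
    change n a / gc n ≤ n' a
    apply Nat.div_le_of_le_mul
    nlinarith
  · intro hc
    have hdv : ∀ a, (gc n : ℤ) ∣ (h a).valMinAbs := by
      intro a
      rw [Int.natCast_dvd]
      exact gc_dvd n a
    have hgz : (gc n : ℤ) ≠ 0 := by exact_mod_cast hg.ne'
    set H : ι → ℤ := fun a => (h a).valMinAbs / (gc n : ℤ) with hH
    have hHm : ∀ a, (h a).valMinAbs = (gc n : ℤ) * H a := fun a => (Int.mul_ediv_cancel' (hdv a)).symm
    have hHn : ∀ a, n a = gc n * (H a).natAbs := by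
      intro a
      have := congrArg Int.natAbs (hHm a)
      rw [Int.natAbs_mul, Int.natAbs_natCast] at this
      exact this
    have hHa : ∀ a, (H a).natAbs ≤ n a := by
      intro a
      rw [hHn a]
      exact Nat.le_mul_of_pos_left _ hg
    have hle : ∀ a, n a ≤ q / 2 := fun a => ZMod.natAbs_valMinAbs_le (h a)
    have hval : ∀ a, ((H a : ℤ) : ZMod q).valMinAbs = H a := by
      intro a
      rw [ZMod.valMinAbs_spec]
      refine ⟨rfl, ?_⟩
      have h1 := hHa a
      have h2 := hle a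
      rw [Set.mem_Ioc]
      omega
    refine ⟨fun a => ((H a : ℤ) : ZMod q), ?_, ?_, ?_⟩
    · intro a h0
      have h1 := hval a
      replace h0 : ((H a : ℤ) : ZMod q) = 0 := h0
      rw [h0] at h1
      have h2 := hHn a
      have h3 := hn1 a
      rw [ZMod.valMinAbs_zero] at h1
      rw [← h1] at h2
      simp at h2
      omega
    · intro a b
      simp only [hval]
      rw [hHm a, hHm b]
      ring
    · unfold Bd sz
      refine le_trans (le_of_eq ?_) hc
      congr 1
      refine sum_congr rfl fun a _ => ?_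
      unfold dl nn
      rw [hval a]
      congr 1
      rw [hHn a, Nat.mul_div_cancel_left _ hg]

/-- the range of absolute values -/
def RR (q m : ℕ) : Finset ℕ := (Icc 1 q).filter (fun x => 2 * (m * x) < q)

theorem mem_RR {q m x : ℕ} : x ∈ RR q m ↔ (1 ≤ x ∧ x ≤ q) ∧ 2 * (m * x) < q := by
  simp [RR]

theorem nn_eq_iff [NeZero q] (hq2 : q % 2 = 1) (x : ZMod q) (n : ℕ) (hn : n ∈ RR q 1) :
    nn x = n ↔ x ∈ ({(n : ZMod q), -(n : ZMod q)} : Finset (ZMod q)) := by
  rw [mem_RR] at hn
  have hv : ((n : ℕ) : ZMod q).valMinAbs = n := ZMod.valMinAbs_natCast_of_le_half (by omega)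
  simp only [mem_insert, mem_singleton]
  constructor
  · intro h
    rcases Int.natAbs_eq x.valMinAbs with h1 | h1
    · left
      rw [← ZMod.coe_valMinAbs x, h1]
      unfold nn at h
      rw [h]; simp
    · right
      rw [← ZMod.coe_valMinAbs x, h1]
      unfold nn at h
      rw [h]; simp
  · rintro (h | h)
    · unfold nn; rw [h, hv]; simp
    · unfold nn; rw [h, ZMod.natAbs_valMinAbs_neg, hv]; simp

theorem nat_ne_neg [NeZero q] (hq2 : q % 2 = 1) (n : ℕ) (hn : n ∈ RR q 1) :
    (n : ZMod q) ≠ -(n : ZMod q) := by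
  rw [mem_RR] at hn
  intro h
  have hv : ((n : ℕ) : ZMod q).valMinAbs = n := ZMod.valMinAbs_natCast_of_le_half (by omega)
  have h1 : ((2 * n : ℕ) : ZMod q) = 0 := by
    push_cast
    linear_combination h
  rw [ZMod.natCast_eq_zero_iff] at h1
  have := Nat.le_of_dvd (by omega) h1
  omega

open Classical in
/-- grouping by absolute values -/
theorem step1 [NeZero q] [DecidableEq ι] [Nonempty ι] (hq2 : q % 2 = 1) (D K0 : ℕ) (f : ι → ZMod q → ℂ) :
    ∑ h ∈ (univ : Finset (ι → ZMod q)).filter (fun h => (∀ a, h a ≠ 0) ∧ BdP D K0 h),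
      ∏ a, f a (h a) =
    ∑ n ∈ Fintype.piFinset (fun _ : ι => RR q 1), if cnd q D K0 n then
      ∏ a, (f a (n a : ZMod q) + f a (-(n a : ZMod q))) else 0 := by
  have hmap : ∀ h ∈ (univ : Finset (ι → ZMod q)).filter (fun h => (∀ a, h a ≠ 0) ∧ BdP D K0 h),
      (fun a => nn (h a)) ∈ Fintype.piFinset (fun _ : ι => RR q 1) := by
    intro h hh
    rw [mem_filter] at hh
    rw [Fintype.mem_piFinset]
    intro a
    rw [mem_RR]
    have h1 := nn_pos (hh.2.1 a)
    have h2 : nn (h a) ≤ q / 2 := ZMod.natAbs_valMinAbs_le (h a)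
    omega
  rw [← sum_fiberwise_of_maps_to hmap]
  refine sum_congr rfl fun n hn => ?_
  rw [Fintype.mem_piFinset] at hn
  split_ifs with hc
  · rw [filter_filter]
    have e : (univ : Finset (ι → ZMod q)).filter (fun h => ((∀ a, h a ≠ 0) ∧ BdP D K0 h) ∧
        (fun a => nn (h a)) = n) =
        Fintype.piFinset (fun a => ({(n a : ZMod q), -(n a : ZMod q)} : Finset (ZMod q))) := by
      ext h
      rw [mem_filter, Fintype.mem_piFinset]
      constructor
      · rintro ⟨_, _, h2⟩ a
        rw [← nn_eq_iff hq2 (h a) (n a) (hn a)]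
        exact congrFun h2 a
      · intro hh
        have h1 : (fun a => nn (h a)) = n := by
          funext a
          exact (nn_eq_iff hq2 (h a) (n a) (hn a)).2 (hh a)
        have h2 : ∀ a, h a ≠ 0 := by
          intro a h0
          have := congrFun h1 a
          have h3 := (mem_RR.1 (hn a)).1.1
          simp only [h0] at this
          unfold nn at this
          rw [ZMod.valMinAbs_zero] at this
          simp at this
          omega
        refine ⟨mem_univ _, ⟨h2, ?_⟩, h1⟩
        rw [bdp_iff hq2 D K0 h h2, h1]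
        exact hc
    rw [e, ← prod_univ_sum]
    refine prod_congr rfl fun a _ => ?_
    rw [sum_pair (nat_ne_neg hq2 (n a) (hn a))]
  · apply sum_eq_zero
    intro h hh
    exfalso
    rw [mem_filter, mem_filter] at hh
    obtain ⟨⟨_, h1, h2⟩, h3⟩ := hh
    apply hc
    rw [bdp_iff hq2 D K0 h h1, h3] at h2
    exact h2

/-- Möbius inversion over the gcd -/
theorem step2 [Nonempty ι] (D K0 : ℕ) (n : ι → ℕ) (hn : ∀ a, n a ∈ RR q 1) [Decidable (cnd q D K0 n)]
    [∀ γ j : ℕ, Decidable ((∀ a, γ * j ∣ n a) ∧ ∑ a, Nat.log 2 (n a / γ) + K0 ≤ D * La q)] :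
    (if cnd q D K0 n then (1 : ℤ) else 0) = ∑ γ ∈ Icc 1 q, ∑ j ∈ Icc 1 q,
      if ((∀ a, γ * j ∣ n a) ∧ ∑ a, Nat.log 2 (n a / γ) + K0 ≤ D * La q) then
        ArithmeticFunction.moebius j else 0 := by
  classical
  have hn1 : ∀ a, 1 ≤ n a := fun a => (mem_RR.1 (hn a)).1.1
  have hg := gc_pos n hn1
  obtain ⟨a0⟩ := (inferInstance : Nonempty ι)
  have hgq : gc n ≤ q := by
    have h1 := Nat.le_of_dvd (hn1 a0) (gc_dvd n a0)
    have h2 := (mem_RR.1 (hn a0)).1.2
    omega
  have hdv : ∀ m, (∀ a, m ∣ n a) ↔ m ∣ gc n := by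
    intro m
    unfold gc
    rw [Finset.dvd_gcd_iff]
    simp
  have inner : ∀ γ ∈ Icc 1 q, (∑ j ∈ Icc 1 q,
      if ((∀ a, γ * j ∣ n a) ∧ ∑ a, Nat.log 2 (n a / γ) + K0 ≤ D * La q) then
        ArithmeticFunction.moebius j else 0) =
      if γ = gc n then (if cnd q D K0 n then (1 : ℤ) else 0) else 0 := by
    intro γ hγ
    rw [mem_Icc] at hγ
    by_cases hd : γ ∣ gc n
    · obtain ⟨m, hm⟩ := hd
      have hm0 : 0 < m := by
        rcases Nat.eq_zero_or_pos m with h | h
        · rw [h, mul_zero] at hm; omega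
        · exact h
      have hmq : m ≤ q := by
        have : m ≤ gc n := by rw [hm]; exact Nat.le_mul_of_pos_left _ (by omega)
        omega
      have hiff : ∀ j, (∀ a, γ * j ∣ n a) ↔ j ∣ m := by
        intro j
        rw [hdv, hm]
        exact Nat.mul_dvd_mul_iff_left (by omega)
      by_cases hS : ∑ a, Nat.log 2 (n a / γ) + K0 ≤ D * La q
      · have e1 : (∑ j ∈ Icc 1 q,
            if ((∀ a, γ * j ∣ n a) ∧ ∑ a, Nat.log 2 (n a / γ) + K0 ≤ D * La q) then
              ArithmeticFunction.moebius j else 0) =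
            ∑ j ∈ m.divisors, ArithmeticFunction.moebius j := by
          rw [← sum_filter]
          apply sum_congr _ (fun _ _ => rfl)
          ext j
          rw [mem_filter, mem_Icc, Nat.mem_divisors]
          constructor
          · rintro ⟨_, h1, _⟩
            exact ⟨(hiff j).1 h1, hm0.ne'⟩
          · rintro ⟨h1, _⟩
            have h2 := Nat.le_of_dvd hm0 h1
            have h3 : 0 < j := Nat.pos_of_dvd_of_pos h1 hm0
            exact ⟨⟨h3, by omega⟩, (hiff j).2 h1, hS⟩
        have e2 : ∑ j ∈ m.divisors, ArithmeticFunction.moebius j = if m = 1 then 1 else 0 := by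
          have h1 : (((ArithmeticFunction.zeta : ArithmeticFunction ℕ) : ArithmeticFunction ℤ) *
              ArithmeticFunction.moebius) m = (1 : ArithmeticFunction ℤ) m := by
            rw [ArithmeticFunction.coe_zeta_mul_moebius]
          rw [ArithmeticFunction.coe_zeta_mul_apply, ArithmeticFunction.one_apply] at h1
          exact h1
        rw [e1, e2]
        by_cases hm1 : m = 1
        · have hγg : γ = gc n := by rw [hm, hm1, mul_one]
          rw [if_pos hm1, if_pos hγg, if_pos]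
          unfold cnd
          rw [← hγg]
          exact hS
        · rw [if_neg hm1, if_neg]
          intro h
          apply hm1
          rw [← h] at hm
          exact (Nat.eq_of_mul_eq_mul_left (by omega : 0 < γ) (by rw [mul_one]; exact hm)).symm
      · have e1 : (∑ j ∈ Icc 1 q,
            if ((∀ a, γ * j ∣ n a) ∧ ∑ a, Nat.log 2 (n a / γ) + K0 ≤ D * La q) then
              ArithmeticFunction.moebius j else 0) = 0 := by
          apply sum_eq_zero
          intro j _
          rw [if_neg]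
          exact fun h => hS h.2
        rw [e1]
        split_ifs with h1 h2
        · exfalso
          apply hS
          unfold cnd at h2
          rw [← h1] at h2
          exact h2
        · rfl
        · rfl
    · have e1 : (∑ j ∈ Icc 1 q,
            if ((∀ a, γ * j ∣ n a) ∧ ∑ a, Nat.log 2 (n a / γ) + K0 ≤ D * La q) then
              ArithmeticFunction.moebius j else 0) = 0 := by
          apply sum_eq_zero
          intro j _
          rw [if_neg]
          intro h
          exact hd (dvd_trans (dvd_mul_right γ j) ((hdv _).1 h.1))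
      rw [e1, if_neg]
      intro h
      exact hd (h ▸ dvd_refl _)
  have hmem : gc n ∈ Icc 1 q := by
    rw [mem_Icc]
    omega
  rw [sum_congr rfl inner, sum_ite_eq' (Icc 1 q) (gc n), if_pos hmem]

open Classical in
/-- multiples of `γ j` -/
theorem step3 [DecidableEq ι] (D K0 : ℕ) (F : ι → ℕ → ℂ) (γ j : ℕ) (hγ : 1 ≤ γ) (hj : 1 ≤ j) :
    (∑ n ∈ Fintype.piFinset (fun _ : ι => RR q 1),
      if ((∀ a, γ * j ∣ n a) ∧ ∑ a, Nat.log 2 (n a / γ) + K0 ≤ D * La q) then
        ∏ a, F a (n a) else 0) =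
    ∑ x ∈ Fintype.piFinset (fun _ : ι => RR q (γ * j)),
      if (∑ a, Nat.log 2 (j * x a) + K0 ≤ D * La q) then ∏ a, F a (γ * j * x a) else 0 := by
  have hgj : 0 < γ * j := by positivity
  rw [← sum_filter, ← sum_filter]
  refine sum_nbij' (fun n a => n a / (γ * j)) (fun x a => γ * j * x a) ?_ ?_ ?_ ?_ ?_
  · intro n hn
    rw [mem_filter, Fintype.mem_piFinset] at hn ⊢
    obtain ⟨h1, h2, h3⟩ := hn
    have h4 : ∀ a, γ * j * (n a / (γ * j)) = n a := fun a => Nat.mul_div_cancel' (h2 a)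
    refine ⟨fun a => ?_, ?_⟩
    · have := mem_RR.1 (h1 a)
      rw [mem_RR]
      rw [h4 a]
      refine ⟨⟨?_, ?_⟩, ?_⟩
      · rcases Nat.eq_zero_or_pos (n a / (γ * j)) with h | h
        · have h5 := h4 a
          rw [h] at h5
          omega
        · exact h
      · exact (Nat.div_le_self _ _).trans this.1.2
      · omega
    · refine le_trans (le_of_eq ?_) h3
      congr 1
      refine sum_congr rfl fun a _ => ?_
      congr 1
      rw [eq_comm]
      apply Nat.div_eq_of_eq_mul_right (by omega : 0 < γ)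
      rw [← mul_assoc]
      exact (h4 a).symm
  · intro x hx
    rw [mem_filter, Fintype.mem_piFinset] at hx ⊢
    obtain ⟨h1, h2⟩ := hx
    refine ⟨fun a => ?_, fun a => dvd_mul_right _ _, ?_⟩
    · have := mem_RR.1 (h1 a)
      rw [mem_RR]
      have h3 : 1 ≤ γ * j * x a := by
        have := this.1.1
        have : 0 < γ * j * x a := by positivity
        omega
      omega
    · refine le_trans (le_of_eq ?_) h2
      congr 1
      refine sum_congr rfl fun a _ => ?_
      congr 1
      change γ * j * x a / γ = j * x a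
      rw [mul_assoc, Nat.mul_div_cancel_left _ (by omega : 0 < γ)]
  · intro n hn
    rw [mem_filter] at hn
    funext a
    exact Nat.mul_div_cancel' (hn.2.1 a)
  · intro x hx
    funext a
    exact Nat.mul_div_cancel_left _ hgj
  · intro n hn
    rw [mem_filter] at hn
    refine prod_congr rfl fun a _ => ?_
    rw [Nat.mul_div_cancel' (hn.2.1 a)]

open Classical in
/-- grouping by dyadic blocks -/
theorem step4 [DecidableEq ι] (D K0 : ℕ) (F : ι → ℕ → ℂ) (γ j : ℕ) (hγ : 1 ≤ γ) (hj : 1 ≤ j) (M : ℝ)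
    (hM : ∀ a, ∑ b ∈ range (La q + 1), ‖∑ x ∈ blk q γ j b, F a (γ * j * x)‖ ≤ M) :
    ‖∑ x ∈ Fintype.piFinset (fun _ : ι => RR q (γ * j)),
      if (∑ a, Nat.log 2 (j * x a) + K0 ≤ D * La q) then ∏ a, F a (γ * j * x a) else 0‖ ≤
    M ^ Fintype.card ι := by
  have hgj : 0 < γ * j := by positivity
  have hmap : ∀ x ∈ Fintype.piFinset (fun _ : ι => RR q (γ * j)),
      (fun a => Nat.log 2 (j * x a)) ∈ Fintype.piFinset (fun _ : ι => range (La q + 1)) := by
    intro x hx
    rw [Fintype.mem_piFinset] at hx ⊢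
    intro a
    rw [mem_range, Nat.lt_succ_iff]
    unfold La
    apply Nat.log_mono_right
    have := mem_RR.1 (hx a)
    have h1 : j * x a ≤ γ * (j * x a) := Nat.le_mul_of_pos_left _ (by omega)
    rw [← mul_assoc] at h1
    omega
  rw [← sum_fiberwise_of_maps_to hmap]
  have e : ∀ b ∈ Fintype.piFinset (fun _ : ι => range (La q + 1)),
      ∑ x ∈ (Fintype.piFinset (fun _ : ι => RR q (γ * j))).filter
        (fun x => (fun a => Nat.log 2 (j * x a)) = b),
        (if (∑ a, Nat.log 2 (j * x a) + K0 ≤ D * La q) then ∏ a, F a (γ * j * x a) else 0) =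
      if (∑ a, b a + K0 ≤ D * La q) then ∏ a, ∑ x ∈ blk q γ j (b a), F a (γ * j * x) else 0 := by
    intro b _
    have e1 : (Fintype.piFinset (fun _ : ι => RR q (γ * j))).filter
        (fun x => (fun a => Nat.log 2 (j * x a)) = b) =
        Fintype.piFinset (fun a => blk q γ j (b a)) := by
      ext x
      rw [mem_filter, Fintype.mem_piFinset, Fintype.mem_piFinset]
      constructor
      · rintro ⟨h1, h2⟩ a
        have h3 := mem_RR.1 (h1 a)
        simp only [blk, mem_filter, mem_Icc]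
        exact ⟨h3.1, congrFun h2 a, h3.2⟩
      · intro h
        refine ⟨fun a => ?_, ?_⟩
        · have := h a
          simp only [blk, mem_filter, mem_Icc] at this
          exact mem_RR.2 ⟨this.1, this.2.2⟩
        · funext a
          have := h a
          simp only [blk, mem_filter, mem_Icc] at this
          exact this.2.1
    have e2 : ∀ x ∈ (Fintype.piFinset (fun _ : ι => RR q (γ * j))).filter
        (fun x => (fun a => Nat.log 2 (j * x a)) = b),
        (if (∑ a, Nat.log 2 (j * x a) + K0 ≤ D * La q) then ∏ a, F a (γ * j * x a) else 0) =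
        if (∑ a, b a + K0 ≤ D * La q) then ∏ a, F a (γ * j * x a) else 0 := by
      intro x hx
      rw [mem_filter] at hx
      have : ∑ a, Nat.log 2 (j * x a) = ∑ a, b a := by
        refine sum_congr rfl fun a _ => ?_
        exact congrFun hx.2 a
      rw [this]
    rw [sum_congr rfl e2, e1]
    split_ifs
    · rw [prod_univ_sum]
    · simp
  rw [sum_congr rfl e]
  refine (norm_sum_le _ _).trans ?_
  have h1 : ∀ b ∈ Fintype.piFinset (fun _ : ι => range (La q + 1)),
      ‖if (∑ a, b a + K0 ≤ D * La q) then ∏ a, ∑ x ∈ blk q γ j (b a), F a (γ * j * x) else 0‖ ≤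
      ∏ a, ‖∑ x ∈ blk q γ j (b a), F a (γ * j * x)‖ := by
    intro b _
    split_ifs
    · rw [norm_prod]
    · rw [norm_zero]
      exact prod_nonneg fun a _ => norm_nonneg _
  refine (sum_le_sum h1).trans ?_
  rw [← prod_univ_sum (fun _ : ι => range (La q + 1))
    (fun a b => ‖∑ x ∈ blk q γ j b, F a (γ * j * x)‖)]
  refine (prod_le_prod (fun a _ => sum_nonneg fun b _ => norm_nonneg _) (fun a _ => hM a)).trans ?_
  rw [prod_const, card_univ]

end red

theorem sum_inv_sq (q : ℕ) : ∑ i ∈ Icc 1 q, 1 / (i : ℝ) ^ 2 ≤ 2 := by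
  have h := sum_Ioo_inv_sq_le (α := ℝ) 0 (q + 1)
  have e : Icc 1 q = Ioo 0 (q + 1) := by
    ext x
    rw [mem_Icc, mem_Ioo]
    omega
  rw [e]
  simpa [one_div] using h

theorem a5 (h4 : St_A4) : St_A5 := by
  classical
  obtain ⟨C, hC, h4⟩ := h4
  intro κ hκ
  refine ⟨C ^ κ * 4 + 1, by positivity, ?_⟩
  intro q hqp hq3 ι _ _ hcard D K0 t φ ht h0 h1
  have hq2 : q % 2 = 1 := by
    rcases hqp.out.eq_two_or_odd with h | h
    · omega
    · exact h
  have : Nonempty ι := by
    rw [← Fintype.card_pos_iff]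
    omega
  rw [step1 hq2 D K0 (fun a => Fc (t a) (φ a))]
  set F : ι → ℕ → ℂ := fun a n => Fc (t a) (φ a) (n : ZMod q) + Fc (t a) (φ a) (-(n : ZMod q)) with hF
  have e1 : ∀ n ∈ Fintype.piFinset (fun _ : ι => RR q 1), (if cnd q D K0 n then
      ∏ a, (Fc (t a) (φ a) (n a : ZMod q) + Fc (t a) (φ a) (-(n a : ZMod q))) else 0) =
      ∑ γ ∈ Icc 1 q, ∑ j ∈ Icc 1 q, (ArithmeticFunction.moebius j : ℂ) *
      (if ((∀ a, γ * j ∣ n a) ∧ ∑ a, Nat.log 2 (n a / γ) + K0 ≤ D * La q) then
        ∏ a, F a (n a) else 0) := by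
    intro n hn
    rw [Fintype.mem_piFinset] at hn
    have h2 := step2 (q := q) D K0 n hn
    have h3 : (((if cnd q D K0 n then (1 : ℤ) else 0 : ℤ)) : ℂ) * ∏ a, F a (n a) = _ :=
      congrArg (fun z : ℤ => (z : ℂ) * ∏ a, F a (n a)) h2
    have e2 : (((if cnd q D K0 n then (1 : ℤ) else 0 : ℤ)) : ℂ) * ∏ a, F a (n a) =
        (if cnd q D K0 n then
        ∏ a, (Fc (t a) (φ a) (n a : ZMod q) + Fc (t a) (φ a) (-(n a : ZMod q))) else 0) := by
      split_ifs
      · push_cast; rw [one_mul]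
      · simp
    rw [← e2, h3]
    push_cast
    rw [sum_mul]
    refine sum_congr rfl fun γ _ => ?_
    rw [sum_mul]
    refine sum_congr rfl fun j _ => ?_
    split_ifs
    · rfl
    · simp
  rw [sum_congr rfl e1, sum_comm]
  refine (norm_sum_le _ _).trans ?_
  have key : ∀ γ ∈ Icc 1 q, ‖∑ n ∈ Fintype.piFinset (fun _ : ι => RR q 1),
      ∑ j ∈ Icc 1 q, (ArithmeticFunction.moebius j : ℂ) *
      (if ((∀ a, γ * j ∣ n a) ∧ ∑ a, Nat.log 2 (n a / γ) + K0 ≤ D * La q) then
        ∏ a, F a (n a) else 0)‖ ≤ C ^ κ * 2 * (1 / (γ : ℝ) ^ 2) := by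
    intro γ hγ
    rw [mem_Icc] at hγ
    have hγ' : (1 : ℝ) ≤ γ := by exact_mod_cast hγ.1
    rw [sum_comm]
    refine (norm_sum_le _ _).trans ?_
    have key2 : ∀ j ∈ Icc 1 q, ‖∑ n ∈ Fintype.piFinset (fun _ : ι => RR q 1),
        (ArithmeticFunction.moebius j : ℂ) *
        (if ((∀ a, γ * j ∣ n a) ∧ ∑ a, Nat.log 2 (n a / γ) + K0 ≤ D * La q) then
          ∏ a, F a (n a) else 0)‖ ≤ C ^ κ * (1 / (γ : ℝ) ^ 2) * (1 / (j : ℝ) ^ 2) := by
      intro j hj
      rw [mem_Icc] at hj
      have hj' : (1 : ℝ) ≤ j := by exact_mod_cast hj.1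
      rw [← mul_sum, norm_mul]
      have hmu : ‖(ArithmeticFunction.moebius j : ℂ)‖ ≤ 1 := by
        have h2 : |ArithmeticFunction.moebius j| ≤ 1 := ArithmeticFunction.abs_moebius_le_one
        rw [Complex.norm_intCast]
        exact_mod_cast h2
      have h5 := step3 (q := q) D K0 F γ j hγ.1 hj.1
      rw [h5]
      have h6 := step4 (q := q) D K0 F γ j hγ.1 hj.1 (C / (γ * j)) (fun a => by
        have := h4 q hq3 (t a) (φ a) (ht a) (h0 a) (h1 a) γ j hγ.1 hj.1
        exact this)
      rw [hcard] at h6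
      have h7 : (C / ((γ : ℝ) * j)) ^ κ ≤ C ^ κ * (1 / (γ : ℝ) ^ 2) * (1 / (j : ℝ) ^ 2) := by
        have hgj : (1 : ℝ) ≤ (γ : ℝ) * j := by nlinarith
        have h8 : ((γ : ℝ) * j) ^ 2 ≤ ((γ : ℝ) * j) ^ κ := pow_le_pow_right₀ hgj hκ
        rw [div_pow]
        calc C ^ κ / ((γ : ℝ) * j) ^ κ ≤ C ^ κ / ((γ : ℝ) * j) ^ 2 :=
              div_le_div_of_nonneg_left (by positivity) (by positivity) h8
          _ = C ^ κ * (1 / (γ : ℝ) ^ 2) * (1 / (j : ℝ) ^ 2) := by
            rw [mul_pow]; field_simp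
      calc ‖(ArithmeticFunction.moebius j : ℂ)‖ * _ ≤ 1 * (C / ((γ : ℝ) * j)) ^ κ :=
            mul_le_mul hmu h6 (norm_nonneg _) (by norm_num)
        _ ≤ _ := by rw [one_mul]; exact h7
    refine (sum_le_sum key2).trans ?_
    rw [← mul_sum]
    have h9 := sum_inv_sq q
    have h10 : 0 ≤ C ^ κ * (1 / (γ : ℝ) ^ 2) := by positivity
    calc C ^ κ * (1 / (γ : ℝ) ^ 2) * ∑ i ∈ Icc 1 q, 1 / (i : ℝ) ^ 2
        ≤ C ^ κ * (1 / (γ : ℝ) ^ 2) * 2 := mul_le_mul_of_nonneg_left h9 h10
      _ = C ^ κ * 2 * (1 / (γ : ℝ) ^ 2) := by ring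
  refine (sum_le_sum key).trans ?_
  rw [← mul_sum]
  have h9 := sum_inv_sq q
  have h10 : 0 ≤ C ^ κ * 2 := by positivity
  have := mul_le_mul_of_nonneg_left h9 h10
  linarith

end Pool.Agent.Y474.SD
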