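import Pool.Agent.Y521.SD.Stm

/-!
Project SD: diffeomorphic manifolds (`StDiff` from `StAll`). (helper474, for helper521.)
-/

set_option autoImplicit false

open Set Filter Topology Metric Function MeasureTheory
open scoped Manifold ContDiff

noncomputable section

namespace Pool.Agent.Y474.SD

open Pool.Agent.Y522 Pool.Agent.Y521.SD

theorem diff (hA : StAll) : StDiff := by
  intro n T _ _ _ _ Ω π X Y _ _ _ _ _ _ h k hπ hh hk
  have : T2Space X := h.symm.t2Space
  have : CompactSpace X := h.symm.compactSpace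
  have : T2Space Y := k.symm.t2Space
  have : CompactSpace Y := k.symm.compactSpace
  obtain ⟨h', hh'⟩ := hA n T Ω π X h hπ hh
  obtain ⟨k', hk'⟩ := hA n T Ω π Y k hπ hk
  have hf : ∀ x, LD n (fun z => k'.symm (h' z)) x := by
    intro x
    obtain ⟨G, ⟨hG1, hG2⟩, hG3⟩ := hh' x
    obtain ⟨G2, ⟨hG21, hG22⟩, hG23⟩ := hk' (k'.symm (h' x))
    set y := k'.symm (h' x) with hy
    have e0 : π (G x) = h' x := hG2.self_of_nhds.2
    have e1 : π (G2 y) = k' y := hG22.self_of_nhds.2
    have e2 : k' y = h' x := k'.apply_symm_apply _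
    obtain ⟨L, hL⟩ := hπ.aff (G x) hG1 (G2 y) hG21 (by rw [e0, e1, e2])
    obtain ⟨U, hU, hUi⟩ := hπ.inj (G2 y) hG21
    obtain ⟨p, hp1, hp2, hp3, hp4⟩ := hG23.exists_inverse
    have hm : LD n (fun z => L (G z + (-G x)) + G2 y) x :=
      LD.comp_fun (g := fun w : E n => w + G2 y) (LD_add_const (G2 y) _)
        (LD.comp_fun (g := fun w : E n => L w) (LD_linear L _)
          (LD.comp_fun (g := fun w : E n => w + (-G x)) (LD_add_const (-G x) _) hG3))
    have hmx : L (G x + (-G x)) + G2 y = G2 y := by simp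
    have hc : LD n (fun z => p (L (G z + (-G x)) + G2 y)) x := by
      refine LD.comp_fun ?_ hm
      rw [hmx]
      exact hp1
    refine hc.congr ?_
    have hcf : ContinuousAt (fun z => k'.symm (h' z)) x :=
      (k'.symm.continuous.comp h'.continuous).continuousAt
    have hGc : ContinuousAt G x := hG3.continuousAt
    have c1 : ∀ᶠ z in 𝓝 x, π (L (G z - G x) + G2 y) = π (G z) := hGc.eventually hL
    have c2 : ∀ᶠ z in 𝓝 x, π (G z) = h' z := hG2.mono fun z hz => hz.2
    have c3 : ∀ᶠ z in 𝓝 x, π (G2 (k'.symm (h' z))) = k' (k'.symm (h' z)) :=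
      hcf.eventually (hG22.mono fun z hz => hz.2)
    have c4 : ∀ᶠ z in 𝓝 x, G2 (k'.symm (h' z)) ∈ U :=
      (ContinuousAt.comp (g := G2) (f := fun z => k'.symm (h' z)) hG23.continuousAt hcf).eventually hU
    have c5 : ∀ᶠ z in 𝓝 x, L (G z + (-G x)) + G2 y ∈ U := by
      have := hm.continuousAt
      rw [ContinuousAt, hmx] at this
      exact this.eventually hU
    have c6 : ∀ᶠ z in 𝓝 x, p (G2 (k'.symm (h' z))) = k'.symm (h' z) := hcf.eventually hp3
    filter_upwards [c1, c2, c3, c4, c5, c6] with z h1 h2 h3 h4 h5 h6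
    rw [sub_eq_add_neg] at h1
    rw [← h6, hUi h4 h5 (by rw [h3, Homeomorph.apply_symm_apply, h1, h2])]
  have hb : Bijective (fun z => k'.symm (h' z)) := k'.symm.bijective.comp h'.bijective
  exact ⟨IsLocalDiffeomorph.diffeomorphOfBijective (fun x => hf x) hb⟩

end Pool.Agent.Y474.SD
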